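import Pool.Agent.W907.SM.Stmts

set_option autoImplicit false
set_option linter.unusedSectionVars false

/-!
# The main inductive vanishing step
-/

namespace Pool.Agent.W346.SM

open Pool.Agent.W907.SG Pool.Agent.W907.SM

section
variable {V C K : Type} [Fintype V] [LinearOrder V] [DecidableEq C] [Field K] {G : SimpleGraph V}
  {col : V → C} {D D' : Set C} {τ : V → K}

lemma bdd_bdd (c : Finset V → (C → Bool) → K) : bdd (bdd c) = 0 := bd_bd (F := K) c

lemma bdd_add (c d : Finset V → (C → Bool) → K) : bdd (c + d) = bdd c + bdd d := by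
  funext T
  simp only [bdd, Pi.add_apply, smul_add, Finset.sum_add_distrib]

lemma bdd_zero : bdd (0 : Finset V → (C → Bool) → K) = 0 := by
  funext T
  simp only [bdd, Pi.zero_apply, smul_zero, Finset.sum_const_zero]

lemma bdd_sum {ι : Type} (s : Finset ι) (f : ι → Finset V → (C → Bool) → K) :
    bdd (∑ i ∈ s, f i) = ∑ i ∈ s, bdd (f i) := by
  classical
  induction s using Finset.induction_on with
  | empty => rw [Finset.sum_empty, Finset.sum_empty, bdd_zero]
  | insert a s ha ih => rw [Finset.sum_insert ha, Finset.sum_insert ha, bdd_add, ih]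

lemma lc_zero {A : Set V} {i : ℕ} : IsLC G col D τ A i (0 : Finset V → (C → Bool) → K) where
  supp T _ := rfl
  line T t _ _ ε := by simp

lemma lc_add {A : Set V} {i : ℕ} {c d : Finset V → (C → Bool) → K} (hc : IsLC G col D τ A i c)
    (hd : IsLC G col D τ A i d) : IsLC G col D τ A i (c + d) where
  supp T hT := by rw [Pi.add_apply, hc.supp T hT, hd.supp T hT, add_zero]
  line T t ht h ε := by
    rw [Pi.add_apply, Pi.add_apply, Pi.add_apply, hc.line T t ht h, hd.line T t ht h, mul_add]

lemma lc_sum {ι : Type} {A : Set V} {i : ℕ} (s : Finset ι) (f : ι → Finset V → (C → Bool) → K)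
    (h : ∀ a ∈ s, IsLC G col D τ A i (f a)) : IsLC G col D τ A i (∑ a ∈ s, f a) := by
  classical
  induction s using Finset.induction_on with
  | empty => rw [Finset.sum_empty]; exact lc_zero
  | insert a s ha ih =>
    rw [Finset.sum_insert ha]
    exact lc_add (h a (Finset.mem_insert_self _ _))
      (ih fun b hb => h b (Finset.mem_insert_of_mem hb))

lemma lc_mono {A B : Set V} {i : ℕ} {c : Finset V → (C → Bool) → K} (h : A ⊆ B)
    (hc : IsLC G col D τ A i c) : IsLC G col D τ B i c where
  supp T hT := hc.supp T fun h1 => hT ⟨h1.1, h1.2.1.trans h, h1.2.2⟩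
  line := hc.line

lemma lc_congr {B : Set V} {i : ℕ} {c : Finset V → (C → Bool) → K}
    (h : ∀ v ∈ B, col v ∈ D' → col v ∈ D) (hc : IsLC G col D τ B i c) :
    IsLC G col D' τ B i c where
  supp := hc.supp
  line T t ht h1 ε := by
    by_cases hT : G.IsClique (T : Set V) ∧ (T : Set V) ⊆ B ∧ T.card = i
    · exact hc.line T t ht (h t (hT.2.1 ht) h1) ε
    · rw [hc.supp T hT]
      simp

lemma ex_congr {B : Set V} {i : ℕ} (h : ∀ v ∈ B, (col v ∈ D ↔ col v ∈ D'))
    (hE : EX G col D τ B i) : EX G col D' τ B i := by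
  intro z hz h0
  obtain ⟨y, hy, h1⟩ := hE z (lc_congr (fun v hv => (h v hv).1) hz) h0
  exact ⟨y, lc_congr (fun v hv => (h v hv).2) hy, h1⟩

lemma lc_zero_deg {A B : Set V} {c : Finset V → (C → Bool) → K} (hc : IsLC G col D τ B 0 c) :
    IsLC G col D τ A 0 c where
  supp T hT := hc.supp T fun h1 => hT ⟨h1.1, by
    rw [Finset.card_eq_zero.1 h1.2.2]; simp, h1.2.2⟩
  line := hc.line

/-- adding pairwise non-adjacent vertices -/
lemma add_many (hS : M_SURJ) (hL : M_LADD) (hcol : ∀ u w, G.Adj u w → col u ≠ col w) (c0 : C)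
    (A : Set V) (m : ℕ) (hA : ∀ k < m, EX G col D τ A k) (W : Finset V)
    (hW : ∀ w ∈ W, w ∉ A ∧ col w = c0 ∧ ∀ k < m, EX G col D τ (A ∩ G.neighborSet w) k) :
    (∀ k < m, EX G col D τ (A ∪ (W : Set V)) k) ∧
    ∀ z : Finset V → (C → Bool) → K, IsLC G col D τ (A ∪ (W : Set V)) m z → bdd z = 0 →
      ∃ y z' : Finset V → (C → Bool) → K, IsLC G col D τ (A ∪ (W : Set V)) (m + 1) y ∧
        IsLC G col D τ A m z' ∧ z = bdd y + z' := by
  classical
  induction W using Finset.induction_on with
  | empty =>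
    rw [Finset.coe_empty, Set.union_empty]
    exact ⟨hA, fun z hz _ => ⟨0, z, lc_zero, hz, by rw [bdd_zero, zero_add]⟩⟩
  | insert w W hw ih =>
    obtain ⟨ih1, ih2⟩ := ih fun v hv => hW v (Finset.mem_insert_of_mem hv)
    obtain ⟨h1, h2, h3⟩ := hW w (Finset.mem_insert_self _ _)
    have e1 : A ∪ ((insert w W : Finset V) : Set V) = insert w (A ∪ (W : Set V)) := by
      rw [Finset.coe_insert, Set.union_insert]
    have h4 : w ∉ A ∪ (W : Set V) := by
      rintro (h | h)
      · exact h1 h
      · exact hw h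
    have e2 : (A ∪ (W : Set V)) ∩ G.neighborSet w = A ∩ G.neighborSet w := by
      ext v
      constructor
      · rintro ⟨h | h, h'⟩
        · exact ⟨h, h'⟩
        · exfalso
          have h5 := (hW v (Finset.mem_insert_of_mem h)).2.1
          exact hcol w v h' (h2.trans h5.symm)
      · rintro ⟨h, h'⟩
        exact ⟨Or.inl h, h'⟩
    rw [e1]
    refine ⟨fun k hk => ?_, fun z hz h0 => ?_⟩
    · refine hL V C K G col D τ _ w k hcol h4 (ih1 k hk) fun j hj => ?_
      rw [e2]
      exact h3 j (by omega)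
    · rcases Nat.eq_zero_or_pos m with hm | hm
      · subst hm
        exact ⟨0, z, lc_zero, lc_zero_deg hz, by rw [bdd_zero, zero_add]⟩
      · obtain ⟨m', rfl⟩ : ∃ m', m = m' + 1 := ⟨m - 1, by omega⟩
        obtain ⟨y, z', hy, hz', h5⟩ := hS V C K G col D τ _ w m' hcol h4
          (by rw [e2]; exact h3 m' (by omega)) z hz h0
        have h6 : bdd z' = 0 := by
          have := congrArg bdd h5
          rw [bdd_add, bdd_bdd, zero_add, h0] at this
          exact this.symm
        obtain ⟨y2, z2, hy2, hz2, h7⟩ := ih2 z' hz' h6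
        refine ⟨y + y2, z2, lc_add hy (lc_mono (Set.subset_insert _ _) hy2), hz2, ?_⟩
        rw [h5, h7, bdd_add, add_assoc]

open Classical in
/-- the part of a chain at the vertex `e` -/
noncomputable def pt (e : V) (y : Finset V → (C → Bool) → K) : Finset V → (C → Bool) → K :=
  fun T => if e ∈ T then 0 else sg e T • y (insert e T)

lemma pt_mem (e : V) (y : Finset V → (C → Bool) → K) {T : Finset V} (h : e ∈ T) :
    pt e y T = 0 := if_pos h

lemma pt_not (e : V) (y : Finset V → (C → Bool) → K) {T : Finset V} (h : e ∉ T) :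
    pt e y T = sg e T • y (insert e T) := if_neg h

lemma pt_lc (hcol : ∀ u w, G.Adj u w → col u ≠ col w) {B : Set V} {m : ℕ} {c1 : C} {e : V}
    (he : col e = c1) {y : Finset V → (C → Bool) → K} (hy : IsLC G col D τ B (m + 1) y) :
    IsLC G col D τ ((B ∩ {v | col v ≠ c1}) ∩ G.neighborSet e) m (pt e y) where
  supp T hT := by
    by_cases h : e ∈ T
    · exact pt_mem e y h
    · rw [pt_not e y h, hy.supp (insert e T) ?_, smul_zero]
      rintro ⟨h1, h2, h3⟩
      have hadj : ∀ v ∈ T, G.Adj e v := by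
        intro v hv
        apply h1 (by simp) (by simp [hv])
        rintro rfl
        exact h hv
      refine hT ⟨h1.subset (by simp), fun v hv => ⟨⟨h2 (by simp at hv ⊢; exact Or.inr hv), ?_⟩,
        hadj v hv⟩, ?_⟩
      · intro h4
        exact hcol e v (hadj v hv) (he.trans h4.symm)
      · rw [Finset.card_insert_of_notMem h] at h3
        omega
  line T t ht h1 ε := by
    by_cases h : e ∈ T
    · rw [pt_mem e y h]
      simp
    · rw [pt_not e y h]
      have := hy.line (insert e T) t (Finset.mem_insert_of_mem ht) h1 ε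
      simp only [Pi.smul_apply]
      rw [this, mul_smul_comm]

lemma pt_cyc {e : V} {y : Finset V → (C → Bool) → K}
    (h : ∀ U : Finset V, e ∈ U → bdd y U = 0) : bdd (pt e y) = 0 := by
  classical
  funext U
  by_cases he : e ∈ U
  · simp only [bdd]
    rw [Pi.zero_apply]
    refine Finset.sum_eq_zero fun v _ => ?_
    rw [pt_mem e y (Finset.mem_insert_of_mem he), smul_zero]
  · have h1 := h (insert e U) (Finset.mem_insert_self _ _)
    simp only [bdd] at h1 ⊢
    have h2 : (insert e U)ᶜ = Uᶜ.erase e := by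
      ext u
      simp
    rw [h2] at h1
    rw [← Finset.add_sum_erase Uᶜ _ (Finset.mem_compl.2 he),
      pt_mem e y (Finset.mem_insert_self _ _), smul_zero, zero_add, Pi.zero_apply]
    have h3 : ∀ v ∈ Uᶜ.erase e, sg v U • pt e y (insert v U) =
        (- sg e U) • (sg v (insert e U) • y (insert v (insert e U))) := by
      intro v hv
      rw [Finset.mem_erase, Finset.mem_compl] at hv
      have hev : e ∉ insert v U := by
        rw [Finset.mem_insert]
        rintro (h5 | h5)
        · exact hv.1 h5.symm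
        · exact he h5
      rw [pt_not e y hev, smul_smul, smul_smul, Finset.insert_comm e v U]
      congr 1
      have := sg_swap e v U (Ne.symm hv.1) he hv.2
      rw [mul_comm (sg v U), this]
      ring
    rw [Finset.sum_congr rfl h3, ← Finset.smul_sum, h1, smul_zero]

lemma pt_sum {B : Set V} {m : ℕ} {c1 : C}
    {y z : Finset V → (C → Bool) → K} (hy : IsLC G col D τ B (m + 1) y)
    (hz : IsLC G col D τ (B ∩ {v | col v ≠ c1}) m z) (hyz : bdd y = z)
    (hcol : ∀ u w, G.Adj u w → col u ≠ col w)
    (hone : ∀ T : Finset V, G.IsClique (T : Set V) → (T : Set V) ⊆ B → T.card = m + 1 →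
      ∃ e ∈ T, col e = c1) (E : Finset V) (hE : ∀ e, e ∈ E ↔ e ∈ B ∧ col e = c1) :
    z = ∑ e ∈ E, pt e y := by
  classical
  funext T
  rw [Finset.sum_apply]
  by_cases hT : (T : Set V) ⊆ B ∩ {v | col v ≠ c1}
  · rw [← hyz]
    simp only [bdd]
    have h1 : ∀ v ∈ Tᶜ, v ∉ E → sg v T • y (insert v T) = 0 := by
      intro v hv hvE
      rw [hy.supp, smul_zero]
      rintro ⟨h2, h3, h4⟩
      obtain ⟨e, he, hec⟩ := hone _ h2 h3 h4
      rw [Finset.mem_insert] at he
      rcases he with rfl | he
      · exact hvE ((hE e).2 ⟨h3 (by simp), hec⟩)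
      · exact (hT he).2 hec
    have hET : E ⊆ Tᶜ := by
      intro e he
      rw [Finset.mem_compl]
      intro heT
      exact (hT heT).2 ((hE e).1 he).2
    rw [← Finset.sum_subset hET fun v hv hvE => h1 v hv hvE]
    refine Finset.sum_congr rfl fun e he => ?_
    rw [pt_not e y (Finset.mem_compl.1 (hET he))]
  · rw [hz.supp T fun h => hT h.2.1]
    symm
    refine Finset.sum_eq_zero fun e he => ?_
    refine (pt_lc hcol ((hE e).1 he).2 hy).supp T fun h => hT ?_
    exact h.2.1.trans Set.inter_subset_left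

end

lemma card_Dbl (n j : ℕ) : (DblF n j).card ≤ j := by
  have h : (DblF n j).card ≤ (Finset.range j).card := by
    refine Finset.card_le_card_of_injOn (fun c => c.val / 2) ?_ ?_
    · intro c hc
      simp only [DblF, Finset.coe_filter, Finset.mem_univ, true_and, Set.mem_ofPred_eq] at hc
      simp only [Finset.coe_range, Set.mem_Iio]
      obtain ⟨⟨k, hk⟩, h2⟩ := hc
      omega
    · intro c hc c' hc' h
      simp only [DblF, Finset.coe_filter, Finset.mem_univ, true_and, Set.mem_ofPred_eq] at hc hc'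
      obtain ⟨⟨k, hk⟩, h2⟩ := hc
      obtain ⟨⟨k', hk'⟩, h2'⟩ := hc'
      apply Fin.ext
      simp only at h
      omega
  simpa using h

theorem vstep (hS : M_SURJ) (hL : M_LADD) (hJ : M_JOIN) : M_VSTEP := by
  classical
  intro n V K _ _ _ r rk τ j htr hrk hn hV hC F S hF hFr hSr hFS i hi
  have hadj : ∀ u w, (W907.SM.cmp r).Adj u w ↔ u ≠ w ∧ (r u w ∨ r w u) := fun u w =>
    SimpleGraph.fromRel_adj _ _ _
  have hcol : ∀ u w, (W907.SM.cmp r).Adj u w → rk u ≠ rk w := by
    intro u w h
    rcases ((hadj u w).1 h).2 with h | h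
    · exact ne_of_lt (hrk _ _ h)
    · exact ne_of_gt (hrk _ _ h)
  have hirr : ∀ u w, r u w → u ≠ w := by
    rintro u w h rfl
    exact lt_irrefl _ (hrk _ _ h)
  -- direction of comparabilities
  have hdir : ∀ u w, (W907.SM.cmp r).Adj u w → rk u < rk w → r u w := by
    intro u w h h1
    rcases ((hadj u w).1 h).2 with h2 | h2
    · exact h2
    · exact absurd (hrk _ _ h2) (not_lt.2 h1.le)
  set c0 : Fin n := ⟨2 * j, by omega⟩ with hc0
  set c1 : Fin n := ⟨2 * j + 1, by omega⟩ with hc1
  have hD' : ∀ c : Fin n, c ∈ DblF n (j + 1) ↔ c ∈ DblF n j ∨ c = c0 := by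
    intro c
    simp only [DblF, Finset.mem_filter, Finset.mem_univ, true_and, hc0, Fin.ext_iff]
    constructor
    · rintro ⟨⟨k, hk⟩, h2⟩
      by_cases h : c.val < 2 * j
      · exact Or.inl ⟨⟨k, hk⟩, h⟩
      · right; omega
    · rintro (⟨h1, h2⟩ | h)
      · exact ⟨h1, by omega⟩
      · exact ⟨⟨j, by omega⟩, by omega⟩
  have hDlt : ∀ c : Fin n, c ∈ DblF n j → c.val < 2 * j := by
    intro c hc
    simp only [DblF, Finset.mem_filter, Finset.mem_univ, true_and] at hc
    exact hc.2
  set m := j + S.card with hm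
  set A : Set V := lk (W907.SM.cmp r) F ∩ {v | rk v ∈ DblF n j ∪ S} with hA
  have hAr : ∀ v ∈ A, rk v ≠ c0 := by
    rintro v ⟨-, hv⟩ h
    rw [Set.mem_ofPred_eq, Finset.mem_union] at hv
    rcases hv with hv | hv
    · have := hDlt _ hv
      rw [h] at this
      exact lt_irrefl _ this
    · have := hSr _ hv
      rw [h] at this
      simp only [hc0] at this
      omega
  have hADD : ∀ B : Set V, B ⊆ A → ∀ k, EX (W907.SM.cmp r) rk (DblF n j : Set (Fin n)) τ B k →
      EX (W907.SM.cmp r) rk (DblF n (j + 1) : Set (Fin n)) τ B k := by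
    intro B hB k hE
    refine ex_congr (fun v hv => ?_) hE
    rw [Finset.mem_coe, Finset.mem_coe, hD']
    constructor
    · exact Or.inl
    · rintro (h | h)
      · exact h
      · exact absurd h (hAr v (hB hv))
  set W : Finset V := Finset.univ.filter (fun v => v ∈ lk (W907.SM.cmp r) F ∧ rk v = c0) with hW
  have hA' : lk (W907.SM.cmp r) F ∩ {v | rk v ∈ DblF n (j + 1) ∪ S} = A ∪ (W : Set V) := by
    ext v
    simp only [hA, hW, Set.mem_inter_iff, Set.mem_ofPred_eq, Finset.mem_union, hD', Set.mem_union,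
      Finset.coe_filter, Finset.mem_univ, true_and]
    tauto
  have h1 : ∀ k < m, EX (W907.SM.cmp r) rk (DblF n (j + 1) : Set (Fin n)) τ A k := by
    intro k hk
    refine hADD A (le_refl _) k (hV F S hF (fun u hu => ?_) (fun s hs => ?_) hFS k hk)
    · have := hFr u hu; omega
    · have := hSr s hs; omega
  have h2 : ∀ w ∈ W, w ∉ A ∧ rk w = c0 ∧ ∀ k < m,
      EX (W907.SM.cmp r) rk (DblF n (j + 1) : Set (Fin n)) τ (A ∩ (W907.SM.cmp r).neighborSet w) k := by
    intro w hw
    rw [hW, Finset.mem_filter] at hw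
    obtain ⟨-, hw1, hw2⟩ := hw
    refine ⟨fun h => hAr w h hw2, hw2, fun k hk => ?_⟩
    refine hADD _ Set.inter_subset_left k ?_
    have e : A ∩ (W907.SM.cmp r).neighborSet w =
        lk (W907.SM.cmp r) (insert w F) ∩ {v | rk v ∈ DblF n j ∪ S} := by
      ext v
      simp only [hA, lk, Set.mem_inter_iff, Set.mem_ofPred_eq, SimpleGraph.mem_neighborSet,
        Finset.mem_insert, forall_eq_or_imp]
      constructor
      · rintro ⟨⟨h3, h4⟩, h5⟩
        exact ⟨⟨h5.symm, h3⟩, h4⟩
      · rintro ⟨⟨h5, h3⟩, h4⟩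
        exact ⟨⟨h3, h4⟩, h5.symm⟩
    rw [e]
    refine hV (insert w F) S ?_ ?_ (fun s hs => ?_) ?_ k hk
    · rw [Finset.coe_insert, SimpleGraph.isClique_insert]
      exact ⟨hF, fun b hb _ => hw1 b hb⟩
    · intro u hu
      rw [Finset.mem_insert] at hu
      rcases hu with rfl | hu
      · rw [hw2]
      · have := hFr u hu; omega
    · have := hSr s hs; omega
    · intro u hu
      rw [Finset.mem_insert] at hu
      rcases hu with rfl | hu
      · rw [hw2]
        intro h
        have := hSr _ h
        simp only [hc0] at this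
        omega
      · exact hFS u hu
  obtain ⟨h3, h4⟩ := add_many hS hL hcol c0 A m h1 W h2
  rw [hA']
  rcases Nat.lt_or_ge i m with him | him
  · exact h3 i him
  obtain rfl : i = m := by omega
  intro z hz hz0
  obtain ⟨y0, z', hy0, hz', hzz⟩ := h4 z hz hz0
  have hz'0 : bdd z' = 0 := by
    have := congrArg bdd hzz
    rw [bdd_add, bdd_bdd, zero_add, hz0] at this
    exact this.symm
  -- the set with the rank `2j+1`
  set B : Set V := lk (W907.SM.cmp r) F ∩ {v | rk v ∈ DblF n j ∪ insert c1 S} with hB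
  have hc1S : c1 ∉ S := by
    intro h
    have := hSr _ h
    simp only [hc1] at this
    omega
  have hBA : B ∩ {v | rk v ≠ c1} = A := by
    ext v
    simp only [hA, hB, Set.mem_inter_iff, Set.mem_ofPred_eq, Finset.mem_union, Finset.mem_insert]
    constructor
    · rintro ⟨⟨h5, h6⟩, h7⟩
      refine ⟨h5, ?_⟩
      rcases h6 with h6 | h6 | h6
      · exact Or.inl h6
      · exact absurd h6 h7
      · exact Or.inr h6
    · rintro ⟨h5, h6⟩
      refine ⟨⟨h5, ?_⟩, ?_⟩
      · rcases h6 with h6 | h6
        · exact Or.inl h6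
        · exact Or.inr (Or.inr h6)
      · intro h7
        rw [h7] at h6
        rcases h6 with h6 | h6
        · have := hDlt _ h6
          simp only [hc1] at this
          omega
        · exact hc1S h6
  have hz'D : IsLC (W907.SM.cmp r) rk (DblF n j : Set (Fin n)) τ A (j + S.card) z' := by
    refine lc_congr (fun v _ h => ?_) hz'
    rw [Finset.mem_coe] at h ⊢
    rw [hD']
    exact Or.inl h
  have hEXB : EX (W907.SM.cmp r) rk (DblF n j : Set (Fin n)) τ B (j + S.card) := by
    refine hV F (insert c1 S) hF (fun u hu => ?_) (fun s hs => ?_) (fun u hu => ?_) _ ?_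
    · have := hFr u hu; omega
    · rw [Finset.mem_insert] at hs
      rcases hs with rfl | hs
      · simp only [hc1]; omega
      · have := hSr s hs; omega
    · rw [Finset.mem_insert]
      rintro (h | h)
      · have h5 := hFr u hu
        rw [h] at h5
        simp only [hc1] at h5
        omega
      · exact hFS u hu h
    · rw [Finset.card_insert_of_notMem hc1S]
      omega
  obtain ⟨y, hy, hyz⟩ := hEXB z' (lc_mono (by rw [← hBA]; exact Set.inter_subset_left) hz'D) hz'0
  have hone : ∀ T : Finset V, (W907.SM.cmp r).IsClique (T : Set V) → (T : Set V) ⊆ B →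
      T.card = j + S.card + 1 → ∃ e ∈ T, rk e = c1 := by
    intro T hT hTB hc
    have h5 : (T.image rk).card = T.card := by
      refine Finset.card_image_of_injOn fun u hu w hw huw => ?_
      by_contra hne
      exact hcol u w (hT hu hw hne) huw
    have h6 : T.image rk ⊆ DblF n j ∪ insert c1 S := by
      intro c hc
      obtain ⟨v, hv, rfl⟩ := Finset.mem_image.1 hc
      exact (hTB hv).2
    have h7 : (DblF n j ∪ insert c1 S).card ≤ (T.image rk).card := by
      rw [h5, hc]
      refine (Finset.card_union_le _ _).trans ?_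
      rw [Finset.card_insert_of_notMem hc1S]
      have := card_Dbl n j
      omega
    have h8 := Finset.eq_of_subset_of_card_le h6 h7
    have h9 : c1 ∈ T.image rk := by
      rw [h8]
      exact Finset.mem_union_right _ (Finset.mem_insert_self _ _)
    obtain ⟨e, he, he1⟩ := Finset.mem_image.1 h9
    exact ⟨e, he, he1⟩
  set E : Finset V := Finset.univ.filter (fun e => e ∈ B ∧ rk e = c1) with hE
  have hEm : ∀ e, e ∈ E ↔ e ∈ B ∧ rk e = c1 := by
    intro e
    rw [hE, Finset.mem_filter]
    exact ⟨fun h => h.2, fun h => ⟨Finset.mem_univ _, h⟩⟩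
  have hsum := pt_sum hy (by rw [hBA]; exact hz'D) hyz hcol hone E hEm
  -- primitives
  have hw : ∀ e ∈ E, ∃ w : Finset V → (Fin n → Bool) → K,
      IsLC (W907.SM.cmp r) rk (DblF n (j + 1) : Set (Fin n)) τ (A ∪ (W : Set V)) (j + S.card + 1) w ∧
        bdd w = pt e y := by
    intro e he
    obtain ⟨heB, hec⟩ := (hEm e).1 he
    have h5 : IsLC (W907.SM.cmp r) rk (DblF n j : Set (Fin n)) τ (A ∩ (W907.SM.cmp r).neighborSet e)
        (j + S.card) (pt e y) := by
      have := pt_lc hcol hec hy
      rwa [hBA] at this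
    have h6 : bdd (pt e y) = 0 := by
      apply pt_cyc
      intro U hU
      rw [hyz]
      refine hz'D.supp U fun h => ?_
      have := h.2.1 hU
      rw [← hBA] at this
      exact this.2 hec
    set P : Set V := {v | r v e} ∩ {v | rk v ∈ DblF n (j + 1)} with hP
    set Q : Set V := (W907.SM.cmp r).neighborSet e ∩ (lk (W907.SM.cmp r) F ∩ {v | rk v ∈ S}) with hQ
    have hev : (rk e).val = 2 * j + 1 := by rw [hec]
    have h7 : (A ∪ (W : Set V)) ∩ (W907.SM.cmp r).neighborSet e = P ∪ Q := by
      rw [← hA']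
      ext v
      simp only [hP, hQ, Set.mem_inter_iff, Set.mem_ofPred_eq, Finset.mem_union, Set.mem_union,
        SimpleGraph.mem_neighborSet]
      constructor
      · rintro ⟨⟨h8, h9⟩, h10⟩
        rcases h9 with h9 | h9
        · left
          refine ⟨hdir v e h10.symm ?_, h9⟩
          rw [Fin.lt_def, hev]
          have h11 := (hD' _).1 h9
          rcases h11 with h11 | h11
          · have := hDlt _ h11; omega
          · rw [h11]; simp only [hc0]; omega
        · exact Or.inr ⟨h10, h8, h9⟩
      · rintro (⟨h8, h9⟩ | ⟨h10, h8, h9⟩)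
        · refine ⟨⟨?_, Or.inl h9⟩, (hadj _ _).2 ⟨(hirr _ _ h8).symm, Or.inr h8⟩⟩
          intro u hu
          have h11 : r e u := by
            refine hdir e u (heB.1 u hu) ?_
            rw [Fin.lt_def, hev]
            have := hFr u hu
            omega
          have h12 := htr _ _ _ h8 h11
          exact (hadj _ _).2 ⟨hirr _ _ h12, Or.inl h12⟩
        · exact ⟨⟨h8, Or.inr h9⟩, h10⟩
    have h8 : EX (W907.SM.cmp r) rk (DblF n (j + 1) : Set (Fin n)) τ
        ((A ∪ (W : Set V)) ∩ (W907.SM.cmp r).neighborSet e) (j + S.card) := by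
      rw [h7]
      refine hJ V (Fin n) K (W907.SM.cmp r) rk _ τ P Q hcol ?_ ?_ _
      · rintro a ⟨ha, -⟩ b ⟨hb1, -, hb3⟩
        have h9 : r e b := by
          refine hdir e b hb1 ?_
          rw [Fin.lt_def, hev]
          have := hSr _ hb3
          omega
        have h10 := htr _ _ _ ha h9
        exact (hadj _ _).2 ⟨hirr _ _ h10, Or.inl h10⟩
      · exact hC {v | r v e} (Or.inr ⟨e, rfl, hev.symm⟩)
    have h9 : IsLC (W907.SM.cmp r) rk (DblF n (j + 1) : Set (Fin n)) τ
        ((A ∪ (W : Set V)) ∩ (W907.SM.cmp r).neighborSet e) (j + S.card) (pt e y) := by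
      refine lc_mono ?_ (lc_congr (D := (DblF n j : Set (Fin n))) (fun v hv h => ?_) h5)
      · exact Set.inter_subset_inter_left _ Set.subset_union_left
      · rw [Finset.mem_coe] at h ⊢
        rcases (hD' _).1 h with h10 | h10
        · exact h10
        · exact absurd h10 (hAr v hv.1)
    obtain ⟨w, hw1, hw2⟩ := h8 _ h9 h6
    exact ⟨w, lc_mono Set.inter_subset_left hw1, hw2⟩
  choose! w hw1 hw2 using hw
  refine ⟨y0 + ∑ e ∈ E, w e, lc_add hy0 (lc_sum _ _ hw1), ?_⟩
  rw [bdd_add, bdd_sum, hzz, hsum]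
  congr 1
  exact Finset.sum_congr rfl hw2

end Pool.Agent.W346.SM
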